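import Pool.Agent.H773.LK.Spec2

set_option autoImplicit false

/-! Project LK, task FREE (helper726) -/

noncomputable section

namespace Pool.Agent.H726.LK

open MeasureTheory Filter Topology Set Polynomial
open Pool.Agent.H773.LK
open scoped ENNReal NNReal ComplexConjugate InnerProductSpace

/-- the multiplier of `D²` -/
def gg (β M θ : ℝ) (ξ : ℤ × ℝ) : ℝ := 1 / (ww β θ ξ + M)

lemma ww_nonneg (β θ : ℝ) (ξ : ℤ × ℝ) : 0 ≤ ww β θ ξ := by
  unfold ww
  positivity

lemma measurable_gg (β M θ : ℝ) : Measurable (gg β M θ) := by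
  unfold gg ww
  have h1 : Measurable (fun ξ : ℤ × ℝ => (ξ.1 : ℝ)) :=
    (measurable_from_top (f := fun n : ℤ => (n : ℝ))).comp measurable_fst
  fun_prop

lemma mop_pow {g : ℤ × ℝ → ℝ} {T : FF →L[ℂ] FF} (hT : IsMop (fun ξ => (g ξ : ℂ)) T) (n : ℕ) :
    IsMop (fun ξ => ((g ξ ^ n : ℝ) : ℂ)) (T ^ n) := by
  induction n with
  | zero =>
    intro v
    simp
  | succ n ih =>
    intro v
    have h1 := hT ((T ^ n) v)
    rw [pow_succ']
    filter_upwards [h1, ih v] with ξ h1 h2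
    show (T ((T ^ n) v) : ℤ × ℝ → ℂ) ξ = _
    rw [h1, h2]
    push_cast
    ring

lemma mop_poly {g : ℤ × ℝ → ℝ} {T : FF →L[ℂ] FF} (hT : IsMop (fun ξ => (g ξ : ℂ)) T)
    (p : ℝ[X]) : IsMop (fun ξ => ((p.eval (g ξ) : ℝ) : ℂ)) (aeval T p) := by
  induction p using Polynomial.induction_on' with
  | add p q hp hq =>
    intro v
    have e : (aeval T (p + q)) v = (aeval T p) v + (aeval T q) v := by
      rw [map_add]
      rfl
    rw [e]
    filter_upwards [hp v, hq v, Lp.coeFn_add ((aeval T p) v) ((aeval T q) v)] with ξ h1 h2 h3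
    rw [h3, Pi.add_apply, h1, h2, Polynomial.eval_add]
    push_cast
    ring
  | monomial n a =>
    intro v
    have e : (aeval T (monomial n a)) v = a • ((T ^ n) v) := by
      rw [aeval_monomial, Algebra.algebraMap_eq_smul_one, smul_mul_assoc, one_mul]
      rfl
    rw [e]
    filter_upwards [mop_pow hT n v, Lp.coeFn_smul a ((T ^ n) v)] with ξ h1 h2
    rw [h2, Pi.smul_apply, h1, Polynomial.eval_monomial]
    push_cast
    rw [Complex.real_smul]
    ring

lemma mop_sq {β M θ : ℝ} (hM : 0 < M) {D : FF →L[ℂ] FF} (hD : IsD β M θ D) :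
    IsMop (fun ξ => (gg β M θ ξ : ℂ)) (D * D) := by
  intro v
  have h1 := hD (D v)
  have h2 := hD v
  filter_upwards [h1, h2] with ξ h1 h2
  show (D (D v) : ℤ × ℝ → ℂ) ξ = _
  rw [h1, h2, ← mul_assoc, ← Complex.ofReal_mul]
  congr 2
  unfold gg
  have h3 : 0 ≤ ww β θ ξ + M := by
    have := ww_nonneg β θ ξ
    linarith
  rw [div_mul_div_comm, one_mul, Real.mul_self_sqrt h3]

/-- inner products of multiplication operators -/
lemma inner_mop {b : ℤ × ℝ → ℝ} {T : FF →L[ℂ] FF} (hT : IsMop (fun ξ => (b ξ : ℂ)) T) (v : FF) :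
    inner ℂ v (T v) = ((∫ ξ, b ξ * ‖v ξ‖ ^ 2 ∂mZR : ℝ) : ℂ) := by
  rw [L2.inner_def, ← integral_complex_ofReal]
  apply integral_congr_ae
  filter_upwards [hT v] with ξ h
  rw [h]
  rw [RCLike.inner_apply]
  push_cast
  have h2 : (starRingEnd ℂ) (v ξ) * (v ξ) = ((‖v ξ‖ : ℝ) : ℂ) ^ 2 := by
    rw [mul_comm, Complex.mul_conj, Complex.normSq_eq_norm_sq]
    push_cast
    rfl
  calc (b ξ : ℂ) * v ξ * (starRingEnd ℂ) (v ξ) = (b ξ : ℂ) * ((starRingEnd ℂ) (v ξ) * v ξ) := by ring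
    _ = _ := by rw [h2]

lemma integrable_sq (v : FF) : Integrable (fun ξ => ‖v ξ‖ ^ 2) mZR := by
  have h := (Lp.memLp v)
  have := h.integrable_norm_pow (by norm_num)
  simpa using this

lemma norm_sq_eq (v : FF) : ‖v‖ ^ 2 = ∫ ξ, ‖v ξ‖ ^ 2 ∂mZR := by
  have h1 : IsMop (fun ξ => (((fun _ : ℤ × ℝ => (1 : ℝ)) ξ : ℝ) : ℂ)) (1 : FF →L[ℂ] FF) := by
    intro v
    simp
  have h2 := inner_mop h1 v
  have h3 : inner ℂ v ((1 : FF →L[ℂ] FF) v) = ((‖v‖ : ℝ) : ℂ) ^ 2 := by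
    simp [inner_self_eq_norm_sq_to_K]
  rw [h3] at h2
  have h4 : ((‖v‖ ^ 2 : ℝ) : ℂ) = ((∫ ξ, 1 * ‖v ξ‖ ^ 2 ∂mZR : ℝ) : ℂ) := by
    push_cast at h2 ⊢
    exact h2
  have h5 := Complex.ofReal_injective h4
  simpa using h5

/-- polynomial approximation of spectral measures -/
lemma spm_poly {F : Type} [NormedAddCommGroup F] [InnerProductSpace ℂ F] [CompleteSpace F]
    {T : F →L[ℂ] F} (hs : IsSelfAdjoint T) {v : F} {ν : Measure ℝ} (h : SpM T v ν) (f : ℝ → ℝ)
    (hf : Continuous f) (p : ℝ[X]) {η : ℝ} (hη : 0 ≤ η)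
    (hp : ∀ x ∈ spectrum ℝ T, |f x - p.eval x| ≤ η) :
    ‖((∫ x, f x ∂ν : ℝ) : ℂ) - inner ℂ v ((aeval T p) v)‖ ≤ η * ‖v‖ ^ 2 := by
  rw [(h.2 f hf).2]
  have e1 : cfc (fun x => p.eval x) T = aeval T p := cfc_polynomial p T
  have e2 : ‖cfc f T - aeval T p‖ ≤ η := by
    rw [← e1, ← cfc_sub f (fun x => p.eval x) T hf.continuousOn p.continuous.continuousOn]
    apply norm_cfc_le hη
    intro x hx
    exact hp x hx
  rw [← inner_sub_right]
  refine (norm_inner_le_norm _ _).trans ?_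
  have h1 : cfc f T v - (aeval T p) v = (cfc f T - aeval T p) v := rfl
  rw [h1]
  have h2 := ContinuousLinearMap.le_opNorm (cfc f T - aeval T p) v
  calc ‖v‖ * ‖(cfc f T - aeval T p) v‖ ≤ ‖v‖ * (‖cfc f T - aeval T p‖ * ‖v‖) :=
        mul_le_mul_of_nonneg_left h2 (norm_nonneg _)
    _ ≤ ‖v‖ * (η * ‖v‖) := by gcongr
    _ = _ := by ring

lemma spec_bdd {F : Type} [NormedAddCommGroup F] [InnerProductSpace ℂ F] [CompleteSpace F]
    (T : F →L[ℂ] F) : ∃ R : ℝ, ∀ x ∈ spectrum ℝ T, |x| ≤ R := by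
  have hK : IsCompact (spectrum ℝ T) := spectrum.isCompact T
  obtain ⟨R, hR⟩ := hK.isBounded.subset_closedBall (0 : ℝ)
  refine ⟨R, fun x hx => ?_⟩
  have h1 := hR hx
  rwa [Metric.mem_closedBall, dist_zero_right, Real.norm_eq_abs] at h1

/-- the functional calculus of `D²` -/
lemma cfc_mop {g : ℤ × ℝ → ℝ} {T : FF →L[ℂ] FF} (hT : IsMop (fun ξ => (g ξ : ℂ)) T)
    (hs : IsSelfAdjoint T) (hg : Measurable g) {A : ℝ} (hA : ∀ ξ, |g ξ| ≤ A) (v : FF)
    {ν : Measure ℝ} (hν : SpM T v ν) (f : ℝ → ℝ) (hf : Continuous f) :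
    ∫ x, f x ∂ν = ∫ ξ, f (g ξ) * ‖v ξ‖ ^ 2 ∂mZR := by
  obtain ⟨R, hR⟩ := spec_bdd T
  obtain ⟨B, hB⟩ : ∃ B : ℝ, B = max R A := ⟨_, rfl⟩
  have hsp : ∀ x ∈ spectrum ℝ T, x ∈ Icc (-B) B := by
    intro x hx
    have h2 : |x| ≤ B := (hR x hx).trans (by rw [hB]; exact le_max_left _ _)
    exact abs_le.1 h2
  have hgI : ∀ ξ, g ξ ∈ Icc (-B) B := by
    intro ξ
    have h2 : |g ξ| ≤ B := (hA ξ).trans (by rw [hB]; exact le_max_right _ _)
    exact abs_le.1 h2
  have hint : ∀ h : ℝ → ℝ, Continuous h → Integrable (fun ξ => h (g ξ) * ‖v ξ‖ ^ 2) mZR := by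
    intro h hh
    obtain ⟨c, hc⟩ := isCompact_Icc.exists_bound_of_continuousOn (s := Icc (-B) B) hh.continuousOn
    refine (integrable_sq v).bdd_mul (c := c) ((hh.measurable.comp hg).aestronglyMeasurable) ?_
    exact Eventually.of_forall fun ξ => hc _ (hgI ξ)
  refine eq_of_forall_dist_le ?_
  intro ε hε
  obtain ⟨p, hp⟩ := exists_polynomial_near_of_continuousOn (-B) B f hf.continuousOn
    (ε / (2 * (‖v‖ ^ 2 + 1))) (by positivity)
  obtain ⟨η, hη⟩ : ∃ η : ℝ, η = ε / (2 * (‖v‖ ^ 2 + 1)) := ⟨_, rfl⟩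
  have hη0 : 0 < η := by rw [hη]; positivity
  rw [← hη] at hp
  have hpT := inner_mop (mop_poly hT p) v
  have e3 := spm_poly hs hν f hf p hη0.le (by
    intro x hx
    have := hp x (hsp x hx)
    rw [abs_sub_comm] at this
    exact this.le)
  have e3 : ‖((∫ x, f x ∂ν : ℝ) : ℂ) -
      ((∫ ξ, p.eval (g ξ) * ‖v ξ‖ ^ 2 ∂mZR : ℝ) : ℂ)‖ ≤ η * ‖v‖ ^ 2 := by
    rw [← hpT]
    exact e3
  rw [← Complex.ofReal_sub, Complex.norm_real, Real.norm_eq_abs] at e3
  have e4 : |(∫ ξ, p.eval (g ξ) * ‖v ξ‖ ^ 2 ∂mZR) - ∫ ξ, f (g ξ) * ‖v ξ‖ ^ 2 ∂mZR| ≤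
      η * ‖v‖ ^ 2 := by
    rw [← integral_sub (hint _ p.continuous) (hint _ hf), norm_sq_eq v, ← integral_const_mul,
      ← Real.norm_eq_abs]
    refine norm_integral_le_of_norm_le ((integrable_sq v).const_mul η) ?_
    filter_upwards with ξ
    rw [← sub_mul, norm_mul, norm_pow, norm_norm]
    exact mul_le_mul_of_nonneg_right (hp _ (hgI ξ)).le (by positivity)
  rw [Real.dist_eq]
  have h6 : η * (2 * (‖v‖ ^ 2 + 1)) = ε := by
    rw [hη]
    field_simp
  have h7 := abs_sub_le (∫ x, f x ∂ν) (∫ ξ, p.eval (g ξ) * ‖v ξ‖ ^ 2 ∂mZR)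
    (∫ ξ, f (g ξ) * ‖v ξ‖ ^ 2 ∂mZR)
  nlinarith

/-- the null set -/
lemma null_one {c : ℝ} (hc : 0 < c) {B : Set ℝ} (hB : volume B = 0) :
    volume {η : ℝ | 1 / (c + (2 * Real.pi * η) ^ 2) ∈ B} = 0 := by
  obtain ⟨k, hk⟩ : ∃ k : ℝ → ℝ, k = fun t => √(1 / t - c) / (2 * Real.pi) := ⟨_, rfl⟩
  have hk1 : DifferentiableOn ℝ k (B ∩ Ioo 0 (1 / c)) := by
    rw [hk]
    intro t ht
    apply DifferentiableAt.differentiableWithinAt
    have ht0 : 0 < t := ht.2.1
    have h1 : 0 < 1 / t - c := by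
      have h2 := ht.2.2
      rw [lt_div_iff₀ hc] at h2
      rw [sub_pos, lt_div_iff₀ ht0]
      linarith
    apply DifferentiableAt.div_const
    have h3 : DifferentiableAt ℝ (fun x : ℝ => 1 / x - c) t :=
      ((differentiableAt_const _).div differentiableAt_id ht0.ne').sub_const c
    exact h3.sqrt h1.ne'
  have hn : volume (B ∩ Ioo 0 (1 / c)) = 0 := measure_mono_null inter_subset_left hB
  have h2 := addHaar_image_eq_zero_of_differentiableOn_of_addHaar_eq_zero volume hk1 hn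
  have h3 := addHaar_image_eq_zero_of_differentiableOn_of_addHaar_eq_zero volume hk1.neg hn
  have h4 : volume ({0} : Set ℝ) = 0 := by simp
  refine measure_mono_null ?_ (measure_union_null h4 (measure_union_null h2 h3))
  intro η hη
  rw [mem_ofPred_eq] at hη
  rcases lt_trichotomy η 0 with h | h | h
  · right; right
    have hpos : 0 < (2 * Real.pi * η) ^ 2 := by
      have : 2 * Real.pi * η ≠ 0 := by
        have := Real.pi_pos
        exact mul_ne_zero (by positivity) h.ne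
      positivity
    refine ⟨_, ⟨hη, ?_, ?_⟩, ?_⟩
    · positivity
    · exact one_div_lt_one_div_of_lt hc (by linarith)
    · rw [hk]
      simp only [Pi.neg_apply]
      rw [one_div_one_div, add_sub_cancel_left, Real.sqrt_sq_eq_abs, abs_of_neg]
      · have := Real.pi_pos
        field_simp
      · have := Real.pi_pos
        have : 0 < 2 * Real.pi := by positivity
        nlinarith
  · left
    exact h
  · right; left
    have hpos : 0 < (2 * Real.pi * η) ^ 2 := by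
      have := Real.pi_pos
      positivity
    refine ⟨_, ⟨hη, ?_, ?_⟩, ?_⟩
    · positivity
    · exact one_div_lt_one_div_of_lt hc (by linarith)
    · rw [hk]
      simp only
      rw [one_div_one_div, add_sub_cancel_left, Real.sqrt_sq]
      · have := Real.pi_pos
        field_simp
      · have := Real.pi_pos
        positivity

lemma null_gg {β M θ : ℝ} (hM : 0 < M) {B : Set ℝ} (hBc : IsCompact B)
    (hB : volume B = 0) : mZR (gg β M θ ⁻¹' B) = 0 := by
  have hm : MeasurableSet (gg β M θ ⁻¹' B) := measurable_gg β M θ hBc.measurableSet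
  rw [Measure.measure_prod_null hm]
  refine Eventually.of_forall fun m => ?_
  have h1 := null_one (c := (β * ((m : ℝ) + θ)) ^ 2 + M) (by positivity) hB
  refine measure_mono_null ?_ h1
  intro η hη
  have h2 : gg β M θ (m, η) ∈ B := hη
  rw [mem_ofPred_eq]
  unfold gg ww at h2
  convert h2 using 2
  simp only
  ring

theorem t_FREE : S_FREE := by
  intro β M θ D _ hM hDs hD B v ν hBc _ hB hν
  have hfin := hν.1
  have hsq := mop_sq hM hD
  have hs : IsSelfAdjoint (D * D) := by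
    rw [IsSelfAdjoint, star_mul, hDs.star_eq]
  have hA : ∀ ξ, |gg β M θ ξ| ≤ 1 / M := by
    intro ξ
    have h1 := ww_nonneg β θ ξ
    unfold gg
    rw [abs_of_pos (by positivity)]
    exact one_div_le_one_div_of_le hM (by linarith)
  have hgm := measurable_gg β M θ
  -- the measure
  obtain ⟨dn, hdn⟩ : ∃ dn : ℤ × ℝ → ℝ≥0, dn = fun ξ => ‖v ξ‖₊ ^ 2 := ⟨_, rfl⟩
  have hdm : Measurable dn := by
    rw [hdn]
    exact ((Lp.stronglyMeasurable v).measurable.nnnorm).pow_const 2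
  have hfd : ∫⁻ ξ, dn ξ ∂mZR ≠ ∞ := by
    have h1 := (integrable_sq v).2
    rw [HasFiniteIntegral] at h1
    refine ne_of_lt (lt_of_le_of_lt (le_of_eq ?_) h1)
    apply lintegral_congr
    intro ξ
    rw [hdn]
    simp [enorm_pow]
    rfl
  have : IsFiniteMeasure (mZR.withDensity fun ξ => (dn ξ : ℝ≥0∞)) := isFiniteMeasure_withDensity hfd
  obtain ⟨ν', hν'⟩ : ∃ ν' : Measure ℝ, ν' = (mZR.withDensity fun ξ => (dn ξ : ℝ≥0∞)).map
      (gg β M θ) := ⟨_, rfl⟩
  have : IsFiniteMeasure ν' := by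
    rw [hν']
    exact Measure.isFiniteMeasure_map _ _
  have heq : ν = ν' := by
    apply ext_of_forall_integral_eq_of_IsFiniteMeasure
    intro f
    rw [cfc_mop hsq hs hgm hA v hν f f.continuous, hν', integral_map hgm.aemeasurable f.continuous.aestronglyMeasurable,
      integral_withDensity_eq_integral_smul hdm]
    apply integral_congr_ae
    filter_upwards with ξ
    rw [hdn]
    simp only [NNReal.smul_def, NNReal.coe_pow, coe_nnnorm, smul_eq_mul]
    ring
  rw [heq, hν', Measure.map_apply hgm hBc.measurableSet]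
  exact withDensity_absolutelyContinuous _ _ (null_gg hM hBc hB)

end Pool.Agent.H726.LK
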